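import Pool.Agent.H46.S.Class
import Pool.Agent.H47.P.DENS2
import Pool.Agent.H41.P.MEMB

/-!
# Module SPEC of THEOREM SIX: the special members near `X`

`SClass.toPClass` forgets the multivector fields and keeps non vanishing only in the semicontinuity;
`spec` is module MEMB of Theorem P with the dimensions, and with the classes orthogonal to `L` which
are not negative on the ample cone.
-/

namespace Pool.Agent.H41.S

open Pool.Agent.H83.HN Pool.Agent.H46.P Pool.Agent.H46.S Filter Topology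

section orth

variable {d : ℕ} {Lam : Type} [AddCommGroup Lam]

/-- On a member with rational period and a horoball in the ample cone, a class orthogonal to `L`
which is not negative on the ample cone is proportional to `L`. -/
theorem orth_of (C : ModClass d Lam) {L A p1 p2 : Lam} (hLL : C.q L L = 0) {B : ℤ}
    (h1 : 0 < C.q p1 p1) (h2 : 0 < C.q p2 p2) (h12 : C.q p1 p2 = 0) (hL1 : C.q L p1 = 0)
    (hL2 : C.q L p2 = 0) (Y : C.Mem) (hNS : ∀ x, x ∈ (C.M Y).NS ↔ C.q x p1 = 0 ∧ C.q x p2 = 0)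
    (hA : A ∈ (C.M Y).Ample) (hAL : 0 < C.q A L)
    (hhoro : ∀ y ∈ (C.M Y).NS, 0 < C.q y y → 0 < C.q y L → B * (C.q L y) ^ 2 < C.q y y →
      y ∈ (C.M Y).Ample)
    (x : Lam) (hx : x ∈ (C.M Y).NS) (hxL : C.q x L = 0)
    (hpos : ∀ a ∈ (C.M Y).Ample, 0 ≤ C.q x a) : ∃ a b : ℤ, a ≠ 0 ∧ a • x = b • L := by
  have hq := C.form
  have hs := C.sig
  obtain ⟨hx1, hx2⟩ := (hNS x).1 hx
  have hANS : A ∈ (C.M Y).NS := (C.M Y).nef_NS ((C.M Y).ample_nef hA)
  obtain ⟨hA1, hA2⟩ := (hNS A).1 hANS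
  have hAA : 0 < C.q A A := (C.M Y).ample_q A hA
  by_cases hxx : 0 ≤ C.q x x
  · exact ⟨C.q A L, C.q A x, hAL.ne',
      light hs hq h1 h2 h12 hL1 hL2 hLL hx1 hx2 hxx hA1 hA2 hAA hxL⟩
  · exfalso
    push Not at hxx
    have hLNS : L ∈ (C.M Y).NS := (hNS L).2 ⟨hL1, hL2⟩
    have hxA : C.q x A = C.q A x := hq.symm _ _
    have hLA : C.q L A = C.q A L := hq.symm _ _
    have hLx : C.q L x = 0 := by rw [hq.symm, hxL]
    have hAx0 : 0 ≤ C.q A x := by
      rw [← hxA]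
      exact hpos A hA
    set j : ℤ := C.q A x + 1 with hj
    set c : ℤ := |B| * (C.q A L) ^ 2 + j ^ 2 * (- C.q x x) + 1 with hc
    have hc0 : 0 ≤ c := by
      have e1 : 0 ≤ |B| * (C.q A L) ^ 2 := by positivity
      have e2 : 0 ≤ j ^ 2 * (- C.q x x) := mul_nonneg (sq_nonneg _) (by omega)
      omega
    set y : Lam := A + j • x + c • L with hy
    have hyNS : y ∈ (C.M Y).NS :=
      add_mem (add_mem hANS (zsmul_mem hx j)) (zsmul_mem hLNS c)
    have eL : C.q y L = C.q A L := by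
      rw [hy, hq.add, hq.add, hq.zsmul_left, hq.zsmul_left, hxL, hLL]
      ring
    have ex : C.q y x = C.q A x + j * C.q x x := by
      rw [hy, hq.add, hq.add, hq.zsmul_left, hq.zsmul_left, hLx]
      ring
    have eA : C.q y A = C.q A A + j * C.q A x + c * C.q A L := by
      rw [hy, hq.add, hq.add, hq.zsmul_left, hq.zsmul_left, hxA, hLA]
    have eyy : C.q y y = C.q A A + 2 * (j * C.q A x) + j ^ 2 * C.q x x + 2 * (c * C.q A L) := by
      have e : C.q y y = C.q y A + j * C.q y x + c * C.q y L := by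
        conv_lhs => rw [hy]
        rw [← hy, hq.add_right, hq.add_right, hq.zsmul_right, hq.zsmul_right]
      rw [e, eA, ex, eL]
      ring
    have hj0 : 0 < j := by omega
    have hcL : c ≤ c * C.q A L := by nlinarith
    have hjA : 0 ≤ j * C.q A x := mul_nonneg hj0.le hAx0
    have hjx : j ^ 2 * C.q x x ≤ 0 := mul_nonpos_of_nonneg_of_nonpos (sq_nonneg _) hxx.le
    have hBB : B * (C.q A L) ^ 2 ≤ |B| * (C.q A L) ^ 2 :=
      mul_le_mul_of_nonneg_right (le_abs_self B) (sq_nonneg _)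
    have hB0 : 0 ≤ |B| * (C.q A L) ^ 2 := by positivity
    have hyA : y ∈ (C.M Y).Ample := by
      refine hhoro y hyNS ?_ (by rw [eL]; exact hAL) ?_
      · rw [eyy]
        linarith
      · rw [hq.symm L y, eL, eyy]
        linarith
    have h3 := hpos y hyA
    rw [hq.symm, ex] at h3
    have h4 : j * C.q x x ≤ j * (-1) := mul_le_mul_of_nonneg_left (by omega) hj0.le
    linarith

end orth

section spec

variable {n : ℕ} {Lam : Type} [AddCommGroup Lam]

/-- A class `SClass` is a class `PClass`. -/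
def _root_.Pool.Agent.H46.S.SClass.toPClass (C : SClass n Lam) : PClass n Lam where
  toModClass := C.toModClass
  wall := C.wall
  per := C.per
  NS_per := C.NS_per
  near := by
    intro X a ha L hL p1 p2 s t h1 h2 h3 h4 h5 h6
    obtain ⟨Y, k0, hY, hsemi⟩ := C.near X a ha L hL p1 p2 s t h1 h2 h3 h4 h5 h6
    refine ⟨Y, k0, hY, fun m hm => ?_⟩
    have := (C.M X).sec_fin (m • L)
    have h7 : 1 ≤ Module.finrank ℂ ((C.M X).Sec (m • L)) := hsemi m 1 fun k1 => by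
      obtain ⟨k, hk, hne⟩ := hm k1
      have := (C.M (Y k)).sec_fin (m • L)
      exact ⟨k, hk, Submodule.one_le_finrank_iff.2 hne⟩
    exact Submodule.one_le_finrank_iff.1 h7
  forms := C.forms
  coh := fun Y x hx hxx hx0 => (C.coh Y x hx hxx hx0).toCoh
  gongyo_matsumura := C.gongyo_matsumura

/-- MODULE SPEC: the special members near `X`. -/
theorem spec (C : SClass n Lam) (X : C.Mem) {L : Lam} (hL : L ∈ (C.M X).Nef) (hL0 : L ≠ 0)
    (hLL : C.q L L = 0) :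
    ∃ Y : ℕ → C.Mem, (∀ k,
      (∀ x, ∀ a : ℕ, 0 < a → a • x ∈ (C.M (Y k)).NS → x ∈ (C.M (Y k)).NS) ∧
      L ∈ (C.M (Y k)).Nef ∧
      (∀ D ∈ (C.M (Y k)).Prime, C.q D L = 0 → ∃ a b : ℕ, 0 < a ∧ 0 < b ∧ a • D = b • L) ∧
      (∀ x ∈ (C.M (Y k)).NS, C.q x L = 0 → (∀ a ∈ (C.M (Y k)).Ample, 0 ≤ C.q x a) →
        ∃ a b : ℤ, a ≠ 0 ∧ a • x = b • L) ∧
      ∃ A ∈ (C.M (Y k)).VeryAmple, Nonempty (Para (C.M (Y k)) L A 1)) ∧
      ∀ m c : ℕ, (∀ k1, ∃ k, k1 ≤ k ∧ c ≤ Module.finrank ℂ ((C.M (Y k)).Sec (m • L))) →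
        c ≤ Module.finrank ℂ ((C.M X).Sec (m • L)) := by
  have hq := C.toModClass.form
  obtain ⟨a, ha⟩ := (C.M X).exists_ample
  have haa : 0 < C.q a a := (C.M X).ample_q a ha
  have haL : 0 < C.q a L := (C.M X).ample_nef_q a ha L hL hL0
  obtain ⟨B', hB'⟩ := C.mbm_bdd
  set B : ℤ := max B' 0 with hBdef
  have hB0 : 0 ≤ B := le_max_right _ _
  have hB : ∀ z ∈ C.MBM, - B ≤ C.q z z := by
    intro z hz
    have := hB' z hz
    have h3 : B' ≤ B := le_max_left _ _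
    linarith
  obtain ⟨p1, p2, s, t, hgood, hre, him⟩ :=
    Pool.Agent.H47.P.dens C.toPClass X ha hL hL0 hLL ((C.q a L) ^ 4 * B)
  have hLX : L ∈ (C.M X).NS := (C.M X).nef_NS hL
  obtain ⟨Y, k0, hY, hsemi⟩ := C.near X a ha L hLX p1 p2 s t (fun k => (hgood k).1)
    (fun k => (hgood k).2.1) (fun k => (hgood k).2.2.1)
    (fun k => ⟨(hgood k).2.2.2.1, (hgood k).2.2.2.2.1, (hgood k).2.2.2.2.2.1,
      (hgood k).2.2.2.2.2.2.1⟩) hre him
  refine ⟨fun k => Y (k0 + k), fun k => ?_, fun m c hm => hsemi m c fun k1 => ?_⟩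
  · obtain ⟨hNS, haY⟩ := hY (k0 + k) (Nat.le_add_right _ _)
    have hg : Good C.q a L (p1 (k0 + k)) (p2 (k0 + k)) ((C.q a L) ^ 4 * B) := hgood (k0 + k)
    have hLY : L ∈ (C.M (Y (k0 + k))).Nef :=
      Pool.Agent.H41.P.lemma_N C.toPClass X ha hL hL0 hLL hB hg (Y (k0 + k)) hNS haY
    -- good also for the constant `B`
    have hg' : Good C.q a L (p1 (k0 + k)) (p2 (k0 + k)) B := by
      obtain ⟨g1, g2, g3, g4, g5, g6, g7, g8⟩ := hg
      refine ⟨g1, g2, g3, g4, g5, g6, g7, fun z e1 e2 e3 e4 e5 => g8 z e1 e2 e3 ?_ e5⟩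
      have h1 : (1 : ℤ) ≤ (C.q a L) ^ 4 := by
        have : (0 : ℤ) < (C.q a L) ^ 4 := by positivity
        omega
      have h2 : 1 * B ≤ (C.q a L) ^ 4 * B := mul_le_mul_of_nonneg_right h1 hB0
      linarith
    obtain ⟨A, t', n', hAt, hva, hAL', hAB, hhoro, hprime⟩ :=
      Pool.Agent.H41.P.horo_of C.toModClass hL0 hLL haa haL hB0 hB hg' (Y (k0 + k)) hNS hLY haY
    obtain ⟨g1, g2, g3, g4, g5, g6, g7, g8⟩ := hg'
    obtain ⟨b, hbl, hb⟩ := vectors 1 C.free C.finite C.rank C.q C.q_add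
      (p1 (k0 + k)) (p2 (k0 + k)) a L
    refine ⟨?_, hLY, hprime, ?_, A, hva,
      para C.toModClass hLL g1 g2 g3 g6 g7 (Y (k0 + k)) A t' n' hNS hAt hva hAL' hAB hhoro b hbl
        (fun i => (hb i).1) (fun i => (hb i).2.1) (fun i => (hb i).2.2.1)
        (fun i => (hb i).2.2.2)⟩
    · intro x j hj hx
      obtain ⟨e1, e2⟩ := (hNS _).1 hx
      rw [hq.nsmul_left] at e1 e2
      have hj' : (j : ℤ) ≠ 0 := by exact_mod_cast hj.ne'
      exact (hNS x).2 ⟨(mul_eq_zero.1 e1).resolve_left hj', (mul_eq_zero.1 e2).resolve_left hj'⟩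
    · exact fun x hx hxL hpos => orth_of C.toModClass hLL g1 g2 g3 g6 g7 (Y (k0 + k)) hNS
        ((C.M (Y (k0 + k))).va_ample hva) hAL' hhoro x hx hxL hpos
  · obtain ⟨k, hk, hkc⟩ := hm k1
    exact ⟨k0 + k, by omega, hkc⟩

end spec

end Pool.Agent.H41.S
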